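import Mathlib
import Pool.Agent.U280.OE.Stm

/-!
# Project OE, package HL

Statement by helper280, proof by helper27.
-/

set_option autoImplicit false

open MeasureTheory Filter Topology

namespace Pool.Agent.U27.OE

open Pool.Agent.U280.OE

theorem t_HL : T_HL := by
  intro d F f hF hf hle hae
  set A : ℝ := ∫ x, f x ^ 2 with hA
  have hi1 : ∀ k, Integrable (fun x => F k x ^ 2) := fun k => (hF k).integrable_sq
  have hi2 : Integrable (fun x => f x ^ 2) := hf.integrable_sq
  have hi3 : ∀ k, Integrable (fun x => (F k x - f x) ^ 2) := fun k =>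
    ((hF k).sub hf).integrable_sq
  have hi4 : ∀ k, Integrable (fun x => (F k x + f x) ^ 2) := fun k =>
    ((hF k).add hf).integrable_sq
  have h1 : ∀ k, ∫ x, (F k x + f x) ^ 2 =
      2 * (∫ x, F k x ^ 2) + 2 * A - ∫ x, (F k x - f x) ^ 2 := by
    intro k
    have hi5 : Integrable (fun x => 2 * F k x ^ 2 + 2 * f x ^ 2) :=
      ((hi1 k).const_mul 2).add (hi2.const_mul 2)
    rw [hA, ← integral_const_mul, ← integral_const_mul,
      ← integral_add ((hi1 k).const_mul 2) (hi2.const_mul 2), ← integral_sub hi5 (hi3 k)]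
    refine integral_congr_ae (Eventually.of_forall fun x => ?_)
    ring
  have h2 : ∀ k, ∫ x, (F k x + f x) ^ 2 ≤ 4 * A - ∫ x, (F k x - f x) ^ 2 := by
    intro k
    have := hle k
    rw [h1]
    linarith
  have h3 : ENNReal.ofReal (4 * A) ≤
      liminf (fun k => ∫⁻ x, ENNReal.ofReal ((F k x + f x) ^ 2)) atTop := by
    have e : ENNReal.ofReal (4 * A) =
        ∫⁻ x, liminf (fun k => ENNReal.ofReal ((F k x + f x) ^ 2)) atTop := by
      rw [hA, ← integral_const_mul, ofReal_integral_eq_lintegral_ofReal (hi2.const_mul 4)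
        (Eventually.of_forall fun x => by positivity)]
      refine lintegral_congr_ae ?_
      filter_upwards [hae] with x hx
      have h4 : Tendsto (fun k => ENNReal.ofReal ((F k x + f x) ^ 2)) atTop
          (𝓝 (ENNReal.ofReal (4 * f x ^ 2))) := by
        have h5 : Tendsto (fun k => (F k x + f x) ^ 2) atTop (𝓝 ((f x + f x) ^ 2)) :=
          (hx.add_const _).pow 2
        have h6 : (f x + f x) ^ 2 = 4 * f x ^ 2 := by ring
        rw [h6] at h5
        exact ENNReal.tendsto_ofReal h5
      rw [h4.liminf_eq]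
    rw [e]
    exact lintegral_liminf_le' fun k => (hi4 k).aestronglyMeasurable.aemeasurable.ennreal_ofReal
  have hpos : ∀ k, 0 ≤ ∫ x, (F k x - f x) ^ 2 := fun k => integral_nonneg fun x => sq_nonneg _
  rw [tendsto_order]
  refine ⟨fun a ha => Eventually.of_forall fun k => lt_of_lt_of_le ha (hpos k), fun ε hε => ?_⟩
  by_contra hcon
  have hfr : ∃ᶠ k in atTop, ε ≤ ∫ x, (F k x - f x) ^ 2 := by
    rw [Filter.Frequently]
    intro h
    apply hcon
    filter_upwards [h] with k hk
    exact not_le.1 hk
  have h7 : liminf (fun k => ∫⁻ x, ENNReal.ofReal ((F k x + f x) ^ 2)) atTop ≤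
      ENNReal.ofReal (4 * A - ε) := by
    refine liminf_le_of_frequently_le' ?_
    refine hfr.mono fun k hk => ?_
    rw [← ofReal_integral_eq_lintegral_ofReal (hi4 k) (Eventually.of_forall fun x => by positivity)]
    refine ENNReal.ofReal_le_ofReal ?_
    have := h2 k
    linarith
  have h8 := h3.trans h7
  obtain ⟨k, hk⟩ := hfr.exists
  have h9 : 0 ≤ 4 * A - ε := by
    have h10 : 0 ≤ ∫ x, (F k x + f x) ^ 2 := integral_nonneg fun x => sq_nonneg _
    have := h2 k
    linarith
  rw [ENNReal.ofReal_le_ofReal_iff h9] at h8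
  linarith

end Pool.Agent.U27.OE
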